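import Pool.Agent.Helper14.AY.GoalsB

/-! # AY, DLM: differentiation of the Levi matrix -/

open Complex Metric Set Filter Topology MeasureTheory
open scoped ContDiff ComplexConjugate ComplexOrder Manifold Matrix

namespace Pool.Agent.Helper35.AY

open Pool.Agent.Helper95.Lin Pool.Agent.Helper16.Abund Pool.Agent.Helper92.Orb Pool.Agent.Helper10.SP
  Pool.Agent.Helper95.RK Pool.Agent.Helper57.HS Pool.Agent.Helper14.AY

/-- The third derivative and the derivative of the second derivative. -/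
theorem d2_aux {n : ℕ} {W : Set (Cn n)} (hW : IsOpen W) {v : Cn n → ℝ}
    (h2 : ContDiffOn ℝ 2 v W) (hg : ContDiffOn ℝ 2 (fderiv ℝ v) W) {x : Cn n} (hx : x ∈ W)
    (u w e : Cn n) :
    HasFDerivAt (fun y => D2 v y u w)
      (((ContinuousLinearMap.apply ℝ ℝ w).comp
        ((ContinuousLinearMap.apply ℝ (Cn n →L[ℝ] ℝ) u))).comp
        (fderiv ℝ (fderiv ℝ (fderiv ℝ v)) x)) x ∧
    fderiv ℝ (fderiv ℝ (fderiv ℝ v)) x e u w =
      D2 (fun y => fderiv ℝ v y e) x u w := by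
  have hWx : W ∈ 𝓝 x := hW.mem_nhds hx
  have hg2 : ContDiffAt ℝ 2 (fderiv ℝ v) x := hg.contDiffAt hWx
  have hD : ∀ y ∈ W, DifferentiableAt ℝ (fderiv ℝ v) y := fun y hy =>
    (hg.contDiffAt (hW.mem_nhds hy)).differentiableAt (by norm_num)
  have hD2 : ∀ y ∈ W, DifferentiableAt ℝ (fderiv ℝ (fderiv ℝ v)) y := fun y hy => by
    have h1 : ContDiffAt ℝ 1 (fderiv ℝ (fderiv ℝ v)) y :=
      (hg.contDiffAt (hW.mem_nhds hy)).fderiv_right (m := 1) (by norm_num)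
    exact h1.differentiableAt (by norm_num)
  have hT := (hD2 x hx).hasFDerivAt
  have key : ∀ u w : Cn n, HasFDerivAt (fun y => D2 v y u w)
      (((ContinuousLinearMap.apply ℝ ℝ w).comp
        ((ContinuousLinearMap.apply ℝ (Cn n →L[ℝ] ℝ) u))).comp
        (fderiv ℝ (fderiv ℝ (fderiv ℝ v)) x)) x := fun u w => by
    have hL : HasFDerivAt (fun A : Cn n →L[ℝ] Cn n →L[ℝ] ℝ => A u w)
      ((ContinuousLinearMap.apply ℝ ℝ w).comp
        ((ContinuousLinearMap.apply ℝ (Cn n →L[ℝ] ℝ) u))) (fderiv ℝ (fderiv ℝ v) x) :=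
      ((ContinuousLinearMap.apply ℝ ℝ w).comp
        ((ContinuousLinearMap.apply ℝ (Cn n →L[ℝ] ℝ) u))).hasFDerivAt
    exact HasFDerivAt.comp (g := fun A : Cn n →L[ℝ] Cn n →L[ℝ] ℝ => A u w)
      (f := fderiv ℝ (fderiv ℝ v)) (f' := fderiv ℝ (fderiv ℝ (fderiv ℝ v)) x) x hL hT
  refine ⟨key u w, ?_⟩
  -- symmetry of the second derivative of `v` near `x`
  have hs2 : ∀ y ∈ W, ∀ p q : Cn n, D2 v y p q = D2 v y q p := fun y hy p q => by
    have := (h2.contDiffAt (hW.mem_nhds hy)).isSymmSndFDerivAt (by simp)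
    exact this p q
  have hs3 : ∀ p q : Cn n, fderiv ℝ (fderiv ℝ (fderiv ℝ v)) x p q =
      fderiv ℝ (fderiv ℝ (fderiv ℝ v)) x q p := fun p q =>
    (hg2.isSymmSndFDerivAt (by simp)) p q
  -- derivative of the derivative in direction `e`
  have h1 : ∀ y ∈ W, fderiv ℝ (fun z => fderiv ℝ v z e) y =
      ((ContinuousLinearMap.apply ℝ ℝ e)).comp (fderiv ℝ (fderiv ℝ v) y) := fun y hy =>
    (((ContinuousLinearMap.apply ℝ ℝ e).hasFDerivAt).comp y (hD y hy).hasFDerivAt).fderiv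
  have h3 : D2 (fun y => fderiv ℝ v y e) x u w =
      fderiv ℝ (fderiv ℝ (fderiv ℝ v)) x u w e := by
    have h4 : (fderiv ℝ fun z => fderiv ℝ v z e) =ᶠ[𝓝 x] fun y =>
        ((ContinuousLinearMap.apply ℝ ℝ e)).comp (fderiv ℝ (fderiv ℝ v) y) := by
      filter_upwards [hWx] with y hy using h1 y hy
    unfold D2
    rw [h4.fderiv_eq]
    have h5 : HasFDerivAt (fun y => ((ContinuousLinearMap.apply ℝ ℝ e)).comp
        (fderiv ℝ (fderiv ℝ v) y))
        ((ContinuousLinearMap.compL ℝ (Cn n) (Cn n →L[ℝ] ℝ) ℝ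
          (ContinuousLinearMap.apply ℝ ℝ e)).comp (fderiv ℝ (fderiv ℝ (fderiv ℝ v)) x)) x := by
      have hL : HasFDerivAt (fun A : Cn n →L[ℝ] Cn n →L[ℝ] ℝ =>
          ((ContinuousLinearMap.apply ℝ ℝ e)).comp A)
        (ContinuousLinearMap.compL ℝ (Cn n) (Cn n →L[ℝ] ℝ) ℝ
          (ContinuousLinearMap.apply ℝ ℝ e)) (fderiv ℝ (fderiv ℝ v) x) :=
        (ContinuousLinearMap.compL ℝ (Cn n) (Cn n →L[ℝ] ℝ) ℝ
          (ContinuousLinearMap.apply ℝ ℝ e)).hasFDerivAt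
      exact HasFDerivAt.comp (g := fun A : Cn n →L[ℝ] Cn n →L[ℝ] ℝ =>
          ((ContinuousLinearMap.apply ℝ ℝ e)).comp A) (f := fderiv ℝ (fderiv ℝ v)) x hL hT
    rw [h5.fderiv]
    rfl
  have h6 : fderiv ℝ (fderiv ℝ (fderiv ℝ v)) x u w e =
      fderiv ℝ (fderiv ℝ (fderiv ℝ v)) x u e w := by
    have e1 : (fun y => D2 v y w e) =ᶠ[𝓝 x] fun y => D2 v y e w := by
      filter_upwards [hWx] with y hy using hs2 y hy w e
    have e2 := e1.fderiv_eq (𝕜 := ℝ)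
    rw [(key w e).fderiv, (key e w).fderiv] at e2
    have e3 := congrArg (fun L : Cn n →L[ℝ] ℝ => L u) e2
    exact e3
  rw [h3, h6, hs3 e u]

theorem dlm (hLMD : S_LMD) (hHCB : S_HCB) : S_DLM := by
  intro n a W ha ha1 hW v hv hve x hx e i j
  have h2 : ContDiffOn ℝ 2 v W := (((hHCB a W ha ha1 hW).1 v).1 hv).1
  have hve2 : ∀ e, ContDiffOn ℝ 2 (fun y => fderiv ℝ v y e) W := fun e =>
    (((hHCB a W ha ha1 hW).1 _).1 (hve e)).1
  have hg : ContDiffOn ℝ 2 (fderiv ℝ v) W :=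
    (contDiffOn_clm_apply (𝕜 := ℝ) (f := fderiv ℝ v) (s := W)).2 hve2
  have hWx : W ∈ 𝓝 x := hW.mem_nhds hx
  have hfor : (fun y => LM v y i j) =ᶠ[𝓝 x] fun y =>
      ((D2 v y (Pi.single i 1) (Pi.single j 1) + D2 v y (Pi.single i I) (Pi.single j I) : ℝ) : ℂ) +
      I * ((D2 v y (Pi.single i 1) (Pi.single j I) -
        D2 v y (Pi.single i I) (Pi.single j 1) : ℝ) : ℂ) := by
    filter_upwards [hWx] with y hy
    exact (hLMD v y (h2.contDiffAt (hW.mem_nhds hy))).2.1 i j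
  have k1 := fun u w => (d2_aux hW h2 hg hx u w e).1
  have k2 := fun u w => (d2_aux hW h2 hg hx u w e).2
  have hR : ∀ (f : Cn n → ℝ) (f' : Cn n →L[ℝ] ℝ), HasFDerivAt f f' x →
      HasFDerivAt (fun y => ((f y : ℝ) : ℂ)) (ofRealCLM.comp f') x := fun f f' hf =>
    HasFDerivAt.comp (g := fun t : ℝ => (t : ℂ)) (f := f) (f' := f') x
      (ofRealCLM.hasFDerivAt (x := f x)) hf
  have hder := (hR _ _ ((k1 (Pi.single i 1) (Pi.single j 1)).add
    (k1 (Pi.single i I) (Pi.single j I)))).add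
    ((hR _ _ ((k1 (Pi.single i 1) (Pi.single j I)).sub
    (k1 (Pi.single i I) (Pi.single j 1)))).const_mul I)
  have hder' := hder.congr_of_eventuallyEq hfor
  refine ⟨hder'.differentiableAt, ?_⟩
  rw [hder'.fderiv, (hLMD _ x ((hve2 e).contDiffAt hWx)).2.1 i j, ← k2, ← k2, ← k2, ← k2]
  simp

end Pool.Agent.Helper35.AY
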